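import Pool.Agent.Helper17.MW.Loc1

/-!
# Row NB1: a graph with more edges than vertices has a part of minimal degree two with a vertex of
degree three
-/

set_option autoImplicit false

namespace Pool.MW

namespace Nb1

open Loc1

variable {d : ℕ}

lemma sum_deg (Γ : SimpleGraph (Fin d)) (T : Finset (Fin d)) :
    ∑ v ∈ T, {w | w ∈ (T : Set (Fin d)) ∧ Γ.Adj v w}.ncard = 2 * (ed Γ T).ncard := by
  classical
  let Γ' : SimpleGraph (Fin d) :=
    { Adj := fun i j => Γ.Adj i j ∧ i ∈ T ∧ j ∈ T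
      symm := ⟨fun i j h => ⟨h.1.symm, h.2.2, h.2.1⟩⟩
      loopless := ⟨fun i h => Γ.loopless.irrefl i h.1⟩ }
  have h1 := Γ'.sum_degrees_eq_twice_card_edges
  have h2 : Γ'.edgeFinset.card = (ed Γ T).ncard := by
    rw [← Set.ncard_coe_finset, SimpleGraph.coe_edgeFinset]
    congr 1
    ext e
    induction e with
    | h a b =>
      constructor
      · intro h
        have h' : Γ.Adj a b ∧ a ∈ T ∧ b ∈ T := h
        refine ⟨h'.1, fun x hx => ?_⟩
        rcases Sym2.mem_iff.1 hx with rfl | rfl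
        · exact h'.2.1
        · exact h'.2.2
      · rintro ⟨h, h'⟩
        exact ⟨h, h' a (Sym2.mem_mk_left a b), h' b (Sym2.mem_mk_right a b)⟩
  rw [h2] at h1
  rw [← h1]
  have h3 : ∀ v, Γ'.degree v = if v ∈ T then {w | w ∈ (T : Set (Fin d)) ∧ Γ.Adj v w}.ncard else 0 := by
    intro v
    rw [← SimpleGraph.card_neighborFinset_eq_degree, ← Set.ncard_coe_finset]
    split_ifs with hv
    · congr 1
      ext w
      rw [Finset.mem_coe, SimpleGraph.mem_neighborFinset]
      exact ⟨fun h => ⟨h.2.2, h.1⟩, fun h => ⟨h.2, hv, h.1⟩⟩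
    · rw [Set.ncard_coe_finset, Finset.card_eq_zero]
      ext w
      rw [SimpleGraph.mem_neighborFinset]
      constructor
      · intro h
        exact absurd h.2.1 hv
      · intro h
        exact absurd h (Finset.notMem_empty w)
  rw [Finset.sum_congr rfl (fun v _ => h3 v), Finset.sum_ite_mem, Finset.univ_inter]

lemma core (Γ : SimpleGraph (Fin d)) (n : ℕ) : ∀ T : Finset (Fin d), T.card = n →
    n < (ed Γ T).ncard →
      ∃ T : Set (Fin d), (∀ v ∈ T, 2 ≤ {w | w ∈ T ∧ Γ.Adj v w}.ncard) ∧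
        ∃ v ∈ T, 3 ≤ {w | w ∈ T ∧ Γ.Adj v w}.ncard := by
  induction n with
  | zero =>
    intro T hT h
    have h1 := sum_deg Γ T
    rw [Finset.card_eq_zero] at hT
    subst hT
    rw [Finset.sum_empty] at h1
    omega
  | succ n ih =>
    intro T hT h
    by_cases hall : ∀ v ∈ T, 2 ≤ {w | w ∈ (T : Set (Fin d)) ∧ Γ.Adj v w}.ncard
    · refine ⟨T, hall, ?_⟩
      by_contra hcon
      push Not at hcon
      have h1 := sum_deg Γ T
      have h2 : ∑ v ∈ T, {w | w ∈ (T : Set (Fin d)) ∧ Γ.Adj v w}.ncard ≤ ∑ _v ∈ T, 2 :=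
        Finset.sum_le_sum fun v hv => by
          have := hcon v hv
          omega
      rw [Finset.sum_const, smul_eq_mul, hT] at h2
      omega
    · push Not at hall
      obtain ⟨v, hv, hlt⟩ := hall
      apply ih (T.erase v)
      · rw [Finset.card_erase_of_mem hv, hT]
        rfl
      · have h1 := ed_erase Γ T v
        omega

end Nb1

open Loc1 in
/-- ROW NB1: a graph on `d - k` vertices (edges outside `K`) with more edges than vertices has a part
of minimal degree two with a vertex of degree three -/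
theorem nb_core {d : ℕ} (K : Finset (Fin d)) (Γ : SimpleGraph (Fin d))
    (hK : ∀ i j, Γ.Adj i j → i ∉ K) (h : d - K.card < Γ.edgeSet.ncard) :
    ∃ T : Set (Fin d), (∀ v ∈ T, 2 ≤ {w | w ∈ T ∧ Γ.Adj v w}.ncard) ∧
      ∃ v ∈ T, 3 ≤ {w | w ∈ T ∧ Γ.Adj v w}.ncard := by
  classical
  apply Nb1.core Γ (d - K.card) Kᶜ (by rw [Finset.card_compl, Fintype.card_fin])
  have : ed Γ Kᶜ = Γ.edgeSet := by
    ext e
    refine ⟨fun h => h.1, fun h => ⟨h, ?_⟩⟩
    induction e with
    | h a b =>
      intro x hx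
      have hab : Γ.Adj a b := h
      rw [Finset.mem_compl]
      rcases Sym2.mem_iff.1 hx with rfl | rfl
      · exact hK _ _ hab
      · exact hK _ _ hab.symm
  rw [this]
  exact h

end Pool.MW
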